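import Pool.Agent.ASO.Stmts3
import Pool.Agent.Helper66_K9.Asm

/-!
# Squad ASO, row CNG: integrality of the weights of the frames
-/

open scoped BigOperators

noncomputable section

namespace Pool.Agent.PP.SO.H35

open Pool.Agent.Helper51_AWC Pool.Agent.Helper79_WRA Pool.Agent.PP Pool.Agent.PP.KF
open Pool.Agent.PP.K9 Pool.Agent.PP.K9.H97 Pool.Agent.PP.H75 Pool.Agent.PP.T3 Pool.Agent.PP.SO

attribute [local instance] Ideal.Quotient.field

/-- the dual character -/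
theorem irr_inv {H : Type} [Group H] [Finite H] {χ : H → ℂ} (hχ : χ ∈ Irr H) :
    (fun h => χ h⁻¹) ∈ Irr H := by
  classical
  have := Fintype.ofFinite H
  obtain ⟨n, r, r1, r2, r3⟩ := irr_coeff hχ
  refine mem_Irr_of_coeff (fun g a b => r g⁻¹ b a) ?_ ?_ _ (fun g => r3 g⁻¹) ?_
  · intro a b
    rw [inv_one, r1]
    by_cases h : a = b
    · rw [if_pos h, if_pos h.symm]
    · rw [if_neg h, if_neg (Ne.symm h)]
  · intro g h a b
    rw [mul_inv_rev, r2]
    exact Finset.sum_congr rfl fun c _ => mul_comm _ _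
  · simp only [inv_inv]
    rw [← irr_orth_self hχ]
    exact Finset.sum_congr rfl fun g _ => mul_comm _ _

theorem sum_supp {G : Type} [Group G] [Fintype G] (H : Subgroup G) [Fintype H] (φ : G → ℂ)
    (h : ∀ x, x ∉ H → φ x = 0) : ∑ x, φ x = ∑ x : H, φ x := by
  classical
  rw [← Finset.sum_subtype (Finset.univ.filter fun x => x ∈ H) (fun x => by simp) φ]
  symm
  apply Finset.sum_filter_of_ne
  intro x _ hx
  by_contra h1
  exact hx (h x h1)

theorem card_cu {G : Type} [Group G] (H : Subgroup G) (s : G) (hs : s ∈ H) :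
    Nat.card (Cu (⟨s, hs⟩ : H)) = Nat.card (H ⊓ Cu s : Subgroup G) := by
  refine Nat.card_congr
    { toFun := fun z => ⟨z.1.1, z.1.2, ?_⟩
      invFun := fun z => ⟨⟨z.1, z.2.1⟩, ?_⟩
      left_inv := fun z => rfl
      right_inv := fun z => rfl }
  · have h1 := Subgroup.mem_centralizer_singleton_iff.1 z.2
    exact Subgroup.mem_centralizer_singleton_iff.2 (congrArg Subtype.val h1)
  · have h1 := Subgroup.mem_centralizer_singleton_iff.1 z.2.2
    exact Subgroup.mem_centralizer_singleton_iff.2 (Subtype.ext h1)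

section bk

variable {V₀ G : Type} [CommGroup V₀] [Group G] {M : Ideal (integralClosure ℤ ℂ)} [M.IsMaximal]

theorem bh_mem (B : Bk (FF M) V₀ G) (W : Subgroup V₀) (t : B.C W) :
    bh B W t = eh M (fun t : B.C W => B.b W t) t := by
  unfold bh
  rw [ext0, dif_pos t.2]

theorem bh_off (B : Bk (FF M) V₀ G) (W : Subgroup V₀) {g : G} (hg : g ∉ B.C W) :
    bh B W g = 0 := by
  unfold bh
  rw [ext0, dif_neg hg]

theorem bh_sing {ℓ : ℕ} [Fact ℓ.Prime] (hM : (ℓ : integralClosure ℤ ℂ) ∈ M) [Finite G]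
    {E₀ : Subgroup (MulAut V₀)} {B : Bk (FF M) V₀ G} (hB : Sb ℓ M E₀ B) (W : Subgroup V₀) {g : G}
    (hg : ¬ Reg ℓ g) : bh B W g = 0 := by
  by_cases h : g ∈ B.C W
  · have := Fintype.ofFinite (B.C W)
    have h1 := bh_mem B W ⟨g, h⟩
    rw [show ((⟨g, h⟩ : B.C W) : G) = g from rfl] at h1
    rw [h1]
    have hid : IsIdem (fun t : B.C W => B.b W t) := (hB.lb W).blk.blk.1
    refine K9.H25.eh_sing wbo_ ℓ M hM _ hid _ ?_
    intro h2
    apply hg
    unfold Reg at h2 ⊢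
    rwa [← Subgroup.orderOf_coe] at h2
  · exact bh_off B W h

theorem bh_cl [Finite G] (B : Bk (FF M) V₀ G) (W : Subgroup V₀) (x y : B.C W) :
    bh B W ((y * x * y⁻¹ : B.C W) : G) = bh B W x := by
  have := Fintype.ofFinite (B.C W)
  rw [bh_mem, bh_mem, K9.H25.eh_cl]

open Classical in
theorem bh_chv [Fintype G] (B : Bk (FF M) V₀ G) (W : Subgroup V₀) [Fintype (B.C W)] {ψ : B.C W → ℂ}
    (hψ : ψ ∈ Irr (B.C W)) :
    ∑ t : B.C W, bh B W t * ψ t = if ψ ∈ IrrE M (fun t : B.C W => B.b W t) then ψ 1 else 0 := by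
  rw [← K9.H25.eh_chv M _ hψ]
  exact Finset.sum_congr rfl fun t _ => by rw [bh_mem]

theorem C_anti (B : Bk (FF M) V₀ G) {W W' : Subgroup V₀} (h : W ≤ W') : B.C W' ≤ B.C W := by
  unfold Bk.C
  exact Subgroup.centralizer_le (SetLike.coe_subset_coe.2 (Subgroup.map_mono h))

theorem irr_cast {X Y : Subgroup G} (h : X = Y) (Ψ : G → ℂ) (hΨ : (fun t : X => Ψ t) ∈ Irr X) :
    (fun t : Y => Ψ t) ∈ Irr Y := by
  subst h
  exact hΨ

end bk

theorem rat_RM {ℓ : ℕ} [Fact ℓ.Prime] {M : Ideal (integralClosure ℤ ℂ)} [M.IsMaximal]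
    (hM : (ℓ : integralClosure ℤ ℂ) ∈ M) {q : ℚ} (hq : q ∈ SOR.Rl ℓ) : ((q : ℚ) : ℂ) ∈ RM M := by
  have h1 : ¬ ℓ ∣ q.den := hq
  have h2 := inv_nat_RM (M := M) (Fact.out : ℓ.Prime) hM h1
  have h3 : ((q : ℚ) : ℂ) = (q.num : ℂ) * ((q.den : ℕ) : ℂ)⁻¹ := by
    rw [← div_eq_mul_inv]
    exact_mod_cast (Rat.num_div_den q).symm
  rw [h3]
  exact (RM M).mul_mem (intCast_mem _ _) h2

theorem cng (prj : PrjStmt) (nsv : NsvStmt) (dgv : DgvStmt) : CngStmt := by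
  classical
  intro ℓ hℓ M _ hM h2 V₀ G _ _ _ _ E₀ hFr B hB c hc f s hs
  have hFG := Fintype.ofFinite G
  have hp : ℓ.Prime := Fact.out
  have htop : (⊤ : Subgroup V₀) ≠ ⊥ := by
    intro h
    have h1 : Nat.card (⊤ : Subgroup V₀) = 1 := by rw [h, Subgroup.card_bot]
    rw [Subgroup.card_top, hFr.cd] at h1
    have h3 := hp.two_le
    nlinarith
  have hFT : Fintype (B.C ⊤) := Fintype.ofFinite _
  have hcT : (Nat.card (B.C ⊤) : ℂ) ≠ 0 := by exact_mod_cast Nat.card_pos.ne'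
  cases f with
  | true =>
    have hfr : frm c true = (⊤ : Subgroup V₀) := rfl
    rw [hfr] at hs ⊢
    have hw : wt B c true s = (Nat.card (B.C ⊤) : ℂ)⁻¹ * bh B ⊤ s := by
      unfold wt
      rw [if_pos rfl]
    rw [hw, ← mul_assoc (Nat.card (B.C ⊤) : ℂ), mul_inv_cancel₀ hcT, one_mul, Subgroup.card_top,
      hFr.cd, ← card_cu (B.C ⊤) s hs]
    have key := prj ℓ M hM (B.C ⊤) (fun t => ((ℓ ^ 2 : ℕ) : ℂ) * bh B ⊤ t) ?_ ?_ ?_ ⟨s, hs⟩
    · exact key
    · intro x y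
      change ((ℓ ^ 2 : ℕ) : ℂ) * bh B ⊤ ((y * x * y⁻¹ : B.C ⊤) : G) = _
      rw [bh_cl]
    · intro x hx
      change ((ℓ ^ 2 : ℕ) : ℂ) * bh B ⊤ x = 0
      rw [bh_sing hM hB.toSb ⊤, mul_zero]
      intro h1
      apply hx
      unfold Reg at h1 ⊢
      rwa [← Subgroup.orderOf_coe]
    · intro χ hχ
      rw [finsum_eq_sum_of_fintype]
      have h3 : ∑ t : B.C ⊤, ((ℓ ^ 2 : ℕ) : ℂ) * bh B ⊤ t * χ t⁻¹ = ((ℓ ^ 2 : ℕ) : ℂ) *
          if (fun t => χ t⁻¹) ∈ IrrE M (fun t : B.C ⊤ => B.b ⊤ t) then (fun t => χ t⁻¹) 1 else 0 := by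
        rw [← bh_chv B ⊤ (irr_inv hχ), Finset.mul_sum]
        exact Finset.sum_congr rfl fun t _ => by ring
      rw [h3]
      by_cases h4 : (fun t => χ t⁻¹) ∈ IrrE M (fun t : B.C ⊤ => B.b ⊤ t)
      · have h7 : (fun t : B.C ⊤ => χ t⁻¹) 1 = (B.D ⊤ : ℂ) := (hB.dg ⊤ htop).2 _ h4
        rw [if_pos h4, h7]
        have h5 := (dgv ℓ M hM V₀ G E₀ hFr B hB ⊤ htop).1
        have h6 : (Nat.card (B.C ⊤) : ℂ)⁻¹ * (((ℓ ^ 2 : ℕ) : ℂ) * (B.D ⊤ : ℂ)) =
            (ℓ ^ 2 * B.D ⊤ / Nat.card (B.C ⊤) : ℂ) := by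
          push_cast
          field_simp
        rw [h6]
        exact h5
      · rw [if_neg h4, mul_zero, mul_zero]
        exact (RM M).zero_mem
  | false =>
    obtain ⟨W, hW⟩ : ∃ W, W = Subgroup.zpowers c := ⟨_, rfl⟩
    have hfr : frm c false = W := by rw [hW]; rfl
    rw [hfr] at hs ⊢
    have hWb : W ≠ ⊥ := by
      rw [hW, Ne, Subgroup.zpowers_eq_bot]
      exact hc
    have hWc : Nat.card W = ℓ := by
      rw [hW, Nat.card_zpowers]
      exact orderOf_eq_prime (hFr.ex c) hc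
    have hFW : Fintype (B.C W) := Fintype.ofFinite _
    have hcW : (Nat.card (B.C W) : ℂ) ≠ 0 := by exact_mod_cast Nat.card_pos.ne'
    have hTW : B.C ⊤ ≤ B.C W := C_anti B le_top
    have hw : wt B c false s = (Nat.card (B.C W) : ℂ)⁻¹ * (bh B W s -
        (Nat.card (B.C ⊤) : ℂ)⁻¹ * ∑ᶠ z : B.C W, bh B ⊤ ((z : G)⁻¹ * s * z)) := by
      unfold wt
      rw [if_neg (by simp), hW]
    rw [hw, ← mul_assoc (Nat.card (B.C W) : ℂ), mul_inv_cancel₀ hcW, one_mul, hWc,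
      ← card_cu (B.C W) s hs]
    have key := prj ℓ M hM (B.C W) (fun t => (ℓ : ℂ) * (bh B W t -
      (Nat.card (B.C ⊤) : ℂ)⁻¹ * ∑ᶠ z : B.C W, bh B ⊤ ((z : G)⁻¹ * t * z))) ?_ ?_ ?_ ⟨s, hs⟩
    · exact key
    · intro x y
      change (ℓ : ℂ) * (bh B W ((y * x * y⁻¹ : B.C W) : G) - (Nat.card (B.C ⊤) : ℂ)⁻¹ *
        ∑ᶠ z : B.C W, bh B ⊤ ((z : G)⁻¹ * ((y * x * y⁻¹ : B.C W) : G) * z)) =
        (ℓ : ℂ) * (bh B W x - (Nat.card (B.C ⊤) : ℂ)⁻¹ *
        ∑ᶠ z : B.C W, bh B ⊤ ((z : G)⁻¹ * x * z))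
      rw [bh_cl]
      congr 3
      rw [finsum_eq_sum_of_fintype, finsum_eq_sum_of_fintype,
        ← Equiv.sum_comp (Equiv.mulLeft y)
          (fun z : B.C W => bh B ⊤ ((z : G)⁻¹ * ((y * x * y⁻¹ : B.C W) : G) * z))]
      refine Finset.sum_congr rfl fun z _ => ?_
      congr 1
      rw [Equiv.coe_mulLeft]
      push_cast
      group
    · intro x hx
      have hx' : ¬ Reg ℓ (x : G) := by
        intro h1
        apply hx
        unfold Reg at h1 ⊢
        rwa [← Subgroup.orderOf_coe]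
      change (ℓ : ℂ) * (bh B W x - (Nat.card (B.C ⊤) : ℂ)⁻¹ *
        ∑ᶠ z : B.C W, bh B ⊤ ((z : G)⁻¹ * x * z)) = 0
      have h3 : ∀ z : B.C W, bh B ⊤ ((z : G)⁻¹ * x * z) = 0 := by
        intro z
        apply bh_sing hM hB.toSb
        intro h4
        apply hx'
        unfold Reg at h4 ⊢
        have h5 : orderOf ((z : G)⁻¹ * x * z) = orderOf (x : G) := by
          have h6 := MulEquiv.orderOf_eq (MulAut.conj ((z : G)⁻¹)) (x : G)
          rwa [MulAut.conj_apply, inv_inv] at h6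
        rwa [h5] at h4
      rw [bh_sing hM hB.toSb W hx']
      simp only [h3]
      rw [finsum_zero, mul_zero, sub_zero, mul_zero]
    · intro χ hχ
      obtain ⟨ψ, hψdef⟩ : ∃ ψ : B.C W → ℂ, ψ = fun h => χ h⁻¹ := ⟨_, rfl⟩
      have hψ : ψ ∈ Irr (B.C W) := by rw [hψdef]; exact irr_inv hχ
      obtain ⟨Ψ, hΨdef⟩ : ∃ Ψ : G → ℂ, Ψ = PP.ext0 (B.C W) ψ := ⟨_, rfl⟩
      have hΨ0 : ∀ x, x ∉ B.C W → Ψ x = 0 := by
        intro x hx
        rw [hΨdef, PP.ext0, dif_neg hx]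
      have hΨ1 : ∀ t : B.C W, Ψ t = ψ t := by
        intro t
        rw [hΨdef, PP.ext0, dif_pos t.2]
      have hΨ2 : (fun t : B.C W => Ψ t) = ψ := funext hΨ1
      have hΨi : (fun t : B.C W => Ψ t) ∈ Irr (B.C W) := by rw [hΨ2]; exact hψ
      -- the two sums
      obtain ⟨S2, hS2⟩ : ∃ S2 : ℂ, S2 = ∑ᶠ s, bh B ⊤ s * Ψ s := ⟨_, rfl⟩
      have hS2' : S2 = ∑ t : B.C W, bh B ⊤ t * ψ t := by
        rw [hS2, finsum_eq_sum_of_fintype, sum_supp (B.C W)]
        · exact Finset.sum_congr rfl fun t _ => by rw [hΨ1]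
        · intro x hx
          rw [hΨ0 x hx, mul_zero]
      have hsum : (Nat.card (B.C W) : ℂ)⁻¹ * ∑ᶠ h : B.C W, (fun t : B.C W => (ℓ : ℂ) *
          (bh B W t - (Nat.card (B.C ⊤) : ℂ)⁻¹ * ∑ᶠ z : B.C W, bh B ⊤ ((z : G)⁻¹ * t * z))) h *
            χ h⁻¹ = (Nat.card (B.C W) : ℂ)⁻¹ * ((ℓ : ℂ) *
          ((if ψ ∈ IrrE M (fun t : B.C W => B.b W t) then ψ 1 else 0) -
            (Nat.card (B.C ⊤) : ℂ)⁻¹ * (Nat.card (B.C W) * S2))) := by
        congr 1
        rw [finsum_eq_sum_of_fintype, ← bh_chv B W hψ]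
        have e1 : ∀ h : B.C W, (fun t : B.C W => (ℓ : ℂ) *
          (bh B W t - (Nat.card (B.C ⊤) : ℂ)⁻¹ * ∑ᶠ z : B.C W, bh B ⊤ ((z : G)⁻¹ * t * z))) h *
            χ h⁻¹ = (ℓ : ℂ) * (bh B W h * ψ h) - (ℓ : ℂ) * ((Nat.card (B.C ⊤) : ℂ)⁻¹ *
              ∑ z : B.C W, bh B ⊤ ((z : G)⁻¹ * h * z) * ψ h) := by
          intro h
          rw [hψdef]
          change (ℓ : ℂ) * (bh B W h - (Nat.card (B.C ⊤) : ℂ)⁻¹ *
            ∑ᶠ z : B.C W, bh B ⊤ ((z : G)⁻¹ * h * z)) * χ h⁻¹ =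
            (ℓ : ℂ) * (bh B W h * χ h⁻¹) - (ℓ : ℂ) * ((Nat.card (B.C ⊤) : ℂ)⁻¹ *
              ∑ z : B.C W, bh B ⊤ ((z : G)⁻¹ * h * z) * χ h⁻¹)
          rw [finsum_eq_sum_of_fintype, ← Finset.sum_mul]
          ring
        rw [Finset.sum_congr rfl fun h _ => e1 h, Finset.sum_sub_distrib, ← Finset.mul_sum,
          ← Finset.mul_sum, ← Finset.mul_sum, Finset.sum_comm, mul_sub]
        congr 3
        rw [hS2']
        have e2 : ∀ z : B.C W, ∑ h : B.C W, bh B ⊤ ((z : G)⁻¹ * h * z) * ψ h =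
            ∑ t : B.C W, bh B ⊤ t * ψ t := by
          intro z
          rw [← Equiv.sum_comp (MulAut.conj z).toEquiv
            (fun h : B.C W => bh B ⊤ ((z : G)⁻¹ * h * z) * ψ h)]
          refine Finset.sum_congr rfl fun h _ => ?_
          have e3 : (MulAut.conj z).toEquiv h = z * h * z⁻¹ := rfl
          rw [e3, irr_conj hψ]
          congr 2
          push_cast
          group
        rw [Finset.sum_congr rfl fun z _ => e2 z, Finset.sum_const, Finset.card_univ,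
          nsmul_eq_mul, Nat.card_eq_fintype_card]
      rw [hsum]
      obtain ⟨-, -, -, -, n5, n6, -⟩ := nsv ℓ M hM h2 V₀ G E₀ hFr B hB W hWb
      by_cases hin : ψ ∈ IrrE M (fun t : B.C W => B.b W t)
      · have hdW : ψ 1 = (B.D W : ℂ) := (hB.dg W hWb).2 _ hin
        have hDW : (B.D W : ℂ) ≠ 0 := by exact_mod_cast (hB.dg W hWb).1.ne'
        rw [if_pos hin, hdW]
        have hCh : Ψ ∈ Ch B W := ⟨hΨ0, by rw [hΨ2]; exact hin⟩
        obtain ⟨m₀, h3 | ⟨h3, h4⟩⟩ := n5 Ψ hCh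
        · rw [← hS2] at h3
          obtain ⟨q, hq, hU⟩ := hB.un W hWb
          have hU' : (B.S W : ℂ) * Nat.card (B.C W) * B.D ⊤ =
              (1 + ℓ * (q : ℂ)) * (Nat.card (B.C ⊤) * B.D W) := by
            unfold Bk.U at hU
            have h5 : ((Nat.card (B.C ⊤) : ℚ) * B.D W) ≠ 0 := by
              refine mul_ne_zero ?_ ?_
              · exact_mod_cast Nat.card_pos.ne'
              · exact_mod_cast (hB.dg W hWb).1.ne'
            rw [div_eq_iff h5] at hU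
            exact_mod_cast hU
          have hSS : (B.S W : ℂ) * B.S W = 1 := by
            rcases hB.sg W hWb with h5 | h5
            · rw [h5]; norm_num
            · rw [h5]; norm_num
          have h6 : (Nat.card (B.C W) : ℂ)⁻¹ * ((ℓ : ℂ) * (B.D W -
              (Nat.card (B.C ⊤) : ℂ)⁻¹ * (Nat.card (B.C W) * S2))) =
              (ℓ ^ 2 * B.D W / Nat.card (B.C W) : ℂ) *
                (-((q : ℂ) + B.S W * m₀ + ℓ * (q : ℂ) * (B.S W * m₀))) := by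
            rw [h3]
            have h7 : (Nat.card (B.C ⊤) : ℂ)⁻¹ * (Nat.card (B.C W) *
                (B.D ⊤ * (ℓ * m₀ + B.S W))) = (1 + ℓ * (q : ℂ)) * B.D W *
                  (B.S W * (ℓ * m₀) + 1) := by
              have h8 : (Nat.card (B.C ⊤) : ℂ)⁻¹ * (Nat.card (B.C W) *
                (B.D ⊤ * (ℓ * m₀ + B.S W))) = (Nat.card (B.C ⊤) : ℂ)⁻¹ *
                  ((B.S W : ℂ) * Nat.card (B.C W) * B.D ⊤) * (B.S W * (ℓ * m₀) + 1) := by
                linear_combination (-(Nat.card (B.C ⊤) : ℂ)⁻¹ * (Nat.card (B.C W) *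
                  (B.D ⊤ * (ℓ * m₀)))) * hSS
              rw [h8, hU']
              field_simp
            rw [h7]
            field_simp
            ring
          rw [h6]
          refine (RM M).mul_mem (dgv ℓ M hM V₀ G E₀ hFr B hB W hWb).1 ((RM M).neg_mem ?_)
          have hqR := rat_RM hM hq
          have hSm : (B.S W : ℂ) * m₀ ∈ RM M :=
            (RM M).mul_mem (intCast_mem _ _) (intCast_mem _ _)
          exact (RM M).add_mem ((RM M).add_mem hqR hSm)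
            ((RM M).mul_mem ((RM M).mul_mem (natCast_mem _ _) hqR) hSm)
        · rw [← hS2] at h4
          have hΨT : (fun t : B.C ⊤ => Ψ t) ∈ Irr (B.C ⊤) := irr_cast h3 Ψ hΨi
          have h5 : S2 = if (fun t : B.C ⊤ => Ψ t) ∈ IrrE M (fun t : B.C ⊤ => B.b ⊤ t) then
              (fun t : B.C ⊤ => Ψ t) 1 else 0 := by
            rw [← bh_chv B ⊤ hΨT, hS2, finsum_eq_sum_of_fintype, sum_supp (B.C ⊤)]
            intro x hx
            rw [bh_off B ⊤ hx, zero_mul]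
          have hDT : (B.D ⊤ : ℂ) ≠ 0 := by exact_mod_cast (hB.dg ⊤ htop).1.ne'
          have h6 : (fun t : B.C ⊤ => Ψ t) ∈ IrrE M (fun t : B.C ⊤ => B.b ⊤ t) := by
            by_contra h7
            rw [if_neg h7, h4] at h5
            exact hDT h5
          have h7 : (fun t : B.C ⊤ => Ψ t) 1 = (B.D ⊤ : ℂ) := (hB.dg ⊤ htop).2 _ h6
          have h8 : (B.D W : ℂ) = B.D ⊤ := by
            rw [← hdW, ← h7, ← hΨ1]
            rfl
          rw [h4, h8, h3]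
          have h9 : (Nat.card (B.C ⊤) : ℂ)⁻¹ * ((ℓ : ℂ) * (B.D ⊤ -
              (Nat.card (B.C ⊤) : ℂ)⁻¹ * (Nat.card (B.C ⊤) * B.D ⊤))) = 0 := by
            rw [inv_mul_cancel_left₀ hcT, sub_self, mul_zero, mul_zero]
          rw [h9]
          exact (RM M).zero_mem
      · rw [if_neg hin]
        have hCh : Ψ ∉ Ch B W := by
          rintro ⟨-, h3⟩
          rw [hΨ2] at h3
          exact hin h3
        obtain ⟨m₀, h3⟩ := n6 Ψ hΨ0 hΨi hCh
        rw [← hS2] at h3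
        rw [h3]
        have h6 : (Nat.card (B.C W) : ℂ)⁻¹ * ((ℓ : ℂ) * (0 -
            (Nat.card (B.C ⊤) : ℂ)⁻¹ * (Nat.card (B.C W) * (B.D ⊤ * (ℓ * m₀))))) =
            (ℓ ^ 2 * B.D ⊤ / Nat.card (B.C ⊤) : ℂ) * (-m₀) := by
          field_simp
          ring
        rw [h6]
        exact (RM M).mul_mem (dgv ℓ M hM V₀ G E₀ hFr B hB ⊤ htop).1
          ((RM M).neg_mem (intCast_mem _ _))

end Pool.Agent.PP.SO.H35
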