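import Pool.Agent.ASO.StmtsL

/-!
# Squad ASO, rows LSM and LID: the sum over a line, the identity (I)
-/

open scoped BigOperators

noncomputable section

namespace Pool.Agent.PP.SO.H35

open Pool.Agent.PP.SO

theorem sum_split {ℓ : ℕ} [Fact ℓ.Prime] (g : ZMod ℓ → ZMod ℓ) (x y : ZMod ℓ) (h0 : g 0 = x)
    (h1 : ∀ a, a ≠ 0 → g a = y) : ∑ a, g a = x - y := by
  have h2 : ∀ a, g a = y + if a = 0 then x - y else 0 := by
    intro a
    by_cases ha : a = 0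
    · rw [if_pos ha, ha, h0]
      ring
    · rw [if_neg ha, h1 a ha, add_zero]
  rw [Finset.sum_congr rfl fun a _ => h2 a, Finset.sum_add_distrib, Finset.sum_const,
    Finset.card_univ, ZMod.card, nsmul_eq_mul, CharP.cast_eq_zero, zero_mul, zero_add,
    Finset.sum_ite_eq' Finset.univ (0 : ZMod ℓ), if_pos (Finset.mem_univ _)]

/-- Row LSM. -/
theorem lsm (ltb : LTbStmt) : LSmStmt := by
  intro ℓ _ V Γ _ _ _ _ _ ρ F f₀ hF c w hc hw
  obtain ⟨b1, b2, -⟩ := ltb ℓ V hF.rk c w hc hw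
  have hbij : Function.Bijective (fun q : ZMod ℓ × ZMod ℓ => q.1 • w + q.2 • c) := by
    constructor
    · rintro ⟨a, b⟩ ⟨a', b'⟩ h
      have h1 : a • w + b • c = a' • w + b' • c := h
      have h2 : (a - a') • w + (b - b') • c = 0 := by
        have h3 : (a - a') • w + (b - b') • c = (a • w + b • c) - (a' • w + b' • c) := by
          rw [sub_smul, sub_smul]
          abel
        rw [h3, h1, sub_self]
      obtain ⟨h3, h4⟩ := b2 _ _ h2
      rw [sub_eq_zero.1 h3, sub_eq_zero.1 h4]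
    · intro v
      obtain ⟨a, b, h⟩ := b1 v
      exact ⟨(a, b), h.symm⟩
  have h1 : ∑ v, F v = ∑ a : ZMod ℓ, ∑ b : ZMod ℓ, F (a • w + b • c) := by
    rw [← Fintype.sum_prod_type' (f := fun a b : ZMod ℓ => F (a • w + b • c)),
      ← Equiv.sum_comp (Equiv.ofBijective _ hbij) F]
    rfl
  have h2 : ∑ b : ZMod ℓ, F ((0 : ZMod ℓ) • w + b • c) = - F c := by
    rw [sum_split (fun b => F ((0 : ZMod ℓ) • w + b • c)) 0 (F c)]
    · rw [zero_sub]
    · rw [zero_smul, zero_smul, add_zero, hF.fz]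
    · intro b hb
      rw [zero_smul, zero_add, hF.fs b c hb]
  have h3 : ∀ a : ZMod ℓ, a ≠ 0 → ∑ b : ZMod ℓ, F (a • w + b • c) =
      ∑ s : ZMod ℓ, F (w + s • c) := by
    intro a ha
    rw [← Equiv.sum_comp (Equiv.mulLeft₀ a ha) (fun b => F (a • w + b • c))]
    refine Finset.sum_congr rfl fun b _ => ?_
    change F (a • w + (a * b) • c) = F (w + b • c)
    rw [mul_smul, ← smul_add, hF.fs a _ ha]
  have h4 := sum_split (fun a => ∑ b : ZMod ℓ, F (a • w + b • c)) _ _ h2 h3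
  rw [h1.symm.trans hF.sm |>.symm.symm] at h4
  linear_combination h4

theorem sum_units {ℓ : ℕ} [Fact ℓ.Prime] (g : ZMod ℓ → ZMod ℓ) (h0 : g 0 = 0) :
    ∑ u : (ZMod ℓ)ˣ, g u = ∑ a, g a := by
  classical
  rw [← Finset.sum_image (s := Finset.univ) (g := fun u : (ZMod ℓ)ˣ => (u : ZMod ℓ)) (f := g)]
  · refine Finset.sum_subset (Finset.subset_univ _) ?_
    intro x _ hx
    by_cases h : x = 0
    · rw [h, h0]
    · exact absurd (Finset.mem_image.2 ⟨Units.mk0 x h, Finset.mem_univ _, rfl⟩) hx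
  · intro u _ v _ huv
    exact Units.ext huv

/-- Row LID. -/
theorem lid (lt1 : LT1Stmt) : LIdStmt := by
  intro ℓ _ V Γ _ _ _ _ _ ρ F N s₀ h hF hN hH c d hc hd φ ψ
  have hT := fun e => lt1 ℓ V Γ ρ F _ h hF hH e c d hc hd φ ψ
  obtain ⟨n, hn⟩ : ∃ n : ZMod ℓ, n = Fintype.card Γ := ⟨_, rfl⟩
  obtain ⟨f₀, hf₀⟩ : ∃ f₀ : ZMod ℓ, f₀ = Fintype.card Γ * s₀ := ⟨_, rfl⟩
  rw [← hf₀] at hF hH ⊢
  simp only [← hf₀] at hT
  -- the sum over `t` and `s`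
  have key : ∀ t s' : (ZMod ℓ)ˣ, N (t • c) ((t * s') • d) * (φ c * ψ d) =
      ∑ e : Γ, (s' : ZMod ℓ)⁻¹ * (F (c + (s' : ZMod ℓ) • ρ e d) *
        (φ (c + (s' : ZMod ℓ) • ρ e d) * ψ (ρ e⁻¹ c + (s' : ZMod ℓ) • d))) := by
    intro t s'
    have ht : (t : ZMod ℓ) ≠ 0 := t.ne_zero
    have hs' : (s' : ZMod ℓ) ≠ 0 := s'.ne_zero
    have e1 := hN.n1 φ ψ (t • c) ((t * s') • d) (by
      rw [Units.smul_def]; exact smul_ne_zero ht hc) (by
      rw [Units.smul_def]; exact smul_ne_zero (t * s').ne_zero hd)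
    have e2 : ∀ e : Γ, F (t • c + ρ e ((t * s') • d)) * (φ (t • c + ρ e ((t * s') • d)) *
        ψ (ρ e⁻¹ (t • c) + (t * s') • d)) = (t : ZMod ℓ) ^ 2 * (F (c + (s' : ZMod ℓ) • ρ e d) *
          (φ (c + (s' : ZMod ℓ) • ρ e d) * ψ (ρ e⁻¹ c + (s' : ZMod ℓ) • d))) := by
      intro e
      have e3 : t • c + ρ e ((t * s') • d) = (t : ZMod ℓ) • (c + (s' : ZMod ℓ) • ρ e d) := by
        rw [Units.smul_def, Units.smul_def, map_smul, Units.val_mul, smul_add, mul_smul]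
      have e4 : ρ e⁻¹ (t • c) + (t * s') • d = (t : ZMod ℓ) • (ρ e⁻¹ c + (s' : ZMod ℓ) • d) := by
        rw [Units.smul_def, Units.smul_def, map_smul, Units.val_mul, smul_add, mul_smul]
      rw [e3, e4, hF.fs _ _ ht, map_smul, map_smul, smul_eq_mul, smul_eq_mul]
      ring
    rw [Finset.sum_congr rfl fun e _ => e2 e, ← Finset.mul_sum, Units.smul_def t c,
      Units.smul_def (t * s') d, map_smul, map_smul, smul_eq_mul, smul_eq_mul,
      Units.val_mul] at e1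
    rw [← Finset.mul_sum, Units.smul_def t c, Units.smul_def (t * s') d, Units.val_mul]
    rw [eq_inv_mul_iff_mul_eq₀ hs']
    have e5 : (t : ZMod ℓ) ^ 2 ≠ 0 := pow_ne_zero _ ht
    apply mul_left_cancel₀ e5
    rw [← e1]
    ring
  have h1 : ∑ t : (ZMod ℓ)ˣ, ∑ s' : (ZMod ℓ)ˣ, N (t • c) ((t * s') • d) * (φ c * ψ d) =
      (n * (F c + F d) - n ^ 2 * s₀) * (φ c * ψ d) := by
    rw [hn, ← hN.n2 c d hc hd, Finset.sum_mul]
    refine Finset.sum_congr rfl fun t _ => ?_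
    rw [Finset.sum_mul]
    exact Equiv.sum_comp (Equiv.mulLeft t) (fun s => N (t • c) (s • d) * (φ c * ψ d))
  have h2 : ∑ t : (ZMod ℓ)ˣ, ∑ s' : (ZMod ℓ)ˣ, N (t • c) ((t * s') • d) * (φ c * ψ d) =
      - ∑ e : Γ, ((f₀ - F c - F d) * (φ (ρ e d) * ψ (ρ e⁻¹ c) + φ c * ψ d) +
        h c (ρ e d) * φ c * ψ (ρ e⁻¹ c) + h d (ρ e⁻¹ c) * φ (ρ e d) * ψ d) := by
    have e1 : ∀ t : (ZMod ℓ)ˣ, ∑ s' : (ZMod ℓ)ˣ, N (t • c) ((t * s') • d) * (φ c * ψ d) =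
        ∑ e : Γ, ((f₀ - F c - F d) * (φ (ρ e d) * ψ (ρ e⁻¹ c) + φ c * ψ d) +
        h c (ρ e d) * φ c * ψ (ρ e⁻¹ c) + h d (ρ e⁻¹ c) * φ (ρ e d) * ψ d) := by
      intro t
      rw [Finset.sum_congr rfl fun s' _ => key t s', Finset.sum_comm]
      refine Finset.sum_congr rfl fun e _ => ?_
      rw [← hT e]
      exact sum_units (fun s => s⁻¹ * (F (c + s • ρ e d) *
        (φ (c + s • ρ e d) * ψ (ρ e⁻¹ c + s • d)))) (by rw [inv_zero, zero_mul])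
    rw [Finset.sum_congr rfl fun t _ => e1 t, Finset.sum_const, Finset.card_univ,
      ZMod.card_units, nsmul_eq_mul, Nat.cast_sub (Fact.out : ℓ.Prime).one_le,
      CharP.cast_eq_zero, Nat.cast_one, zero_sub, neg_one_mul]
  rw [h1] at h2
  have h3 : ∑ e : Γ, ((f₀ - F c - F d) * (φ (ρ e d) * ψ (ρ e⁻¹ c) + φ c * ψ d) +
        h c (ρ e d) * φ c * ψ (ρ e⁻¹ c) + h d (ρ e⁻¹ c) * φ (ρ e d) * ψ d) =
      ∑ e : Γ, ((f₀ - F c - F d) * φ (ρ e d) * ψ (ρ e⁻¹ c) + h c (ρ e d) * φ c * ψ (ρ e⁻¹ c) +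
      h d (ρ e⁻¹ c) * φ (ρ e d) * ψ d) + n * ((f₀ - F c - F d) * (φ c * ψ d)) := by
    have e1 : n * ((f₀ - F c - F d) * (φ c * ψ d)) =
        ∑ _e : Γ, (f₀ - F c - F d) * (φ c * ψ d) := by
      rw [Finset.sum_const, Finset.card_univ, nsmul_eq_mul, hn]
    rw [e1, ← Finset.sum_add_distrib]
    refine Finset.sum_congr rfl fun e _ => ?_
    ring
  rw [h3] at h2
  have h4 : n ^ 2 * s₀ = n * f₀ := by
    rw [hf₀, ← hn]
    ring
  linear_combination h2 + (φ c * ψ d) * h4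

end Pool.Agent.PP.SO.H35
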